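import Mathlib
import Pool.Agent.N205.RT.BS
import Pool.Agent.N205.SG.Count

/-!
# Zeta orders and ranks of higher Chow groups for products of almost all abelian varieties of every
Newton stratum with all schemes

Let `g i` (`i` in a finite set `I`) be positive integers, `B` any number and `d` a number such that
either `d ≤ 2`, or `d ≤ g i` and `g i` is three or at least five, for all `i` (`DimsU`).  By Honda and
Tate the irreducible polynomials in `weilPolys (p ^ a) g` correspond to the isogeny classes of the
simple abelian varieties over the field with `q = p ^ a` elements whose field `ℚ (π)` has degree
`2 g`; the characteristic polynomial of the Frobenius is a power of the polynomial (the polynomial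
itself if `a = 1` or if the abelian variety is ordinary).

Let `S i` be a **stratum** (`IsStratum p a (g i) t (S i)`), for instance the set of the Weil
polynomials of degree `2 g i` whose Newton polygon is a given one, or lies on or above a given one,
or any set in between, or the set of the Weil polynomials of given `p`-rank. The parameter `t` may be
`a` if the `p`-rank is at least two, and any number `t ≤ a (1 - 2 λ) - 1` where `λ` is the first slope
(normalised so that the supersingular polygon has slope one half), see `StrataFacts`: so every
stratum except for the supersingular one is included as soon as `a (1 - 2 λ) ≥ 2`.

There is a constant `C`, depending only on `g`, `d` and `B`, such that the following holds.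

**(1)** For all families `f i` in `S i` with the exception of a proportion at most
`C (p ^ t) ^ (-1 / 6) log (p ^ t)`, the statement `BlochSouleForIndep (p ^ a) f` holds: for all `s > 0`,
`Q = q ^ s`, all abelian varieties `A` over the field `k` with `Q` elements, isogenous to products of
powers of abelian varieties coming from the field with `q` elements whose characteristic polynomials
are powers of the `f i`, and **all schemes `U` of finite type** over `k`, of any dimension `e`, singular
or not, proper or not, with independent eigenvalues of Frobenius:

* no power `α ^ N`, `N > 0`, of a root `α` of one of the `f i` is a product of powers (with positive or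
  negative exponents) of `q` and of the numbers whose power sums are the numbers of points of `U`
  (`IsIndepCount`; the eigenvalues of Frobenius on the `ℓ`-adic cohomology of `U` with compact
  supports);
* the Frobenius endomorphism of `U` satisfies on `CH^r(A × U, k)_ℚ` polynomials whose roots are
  independent in the same sense (`IsIndependent`): for instance if `U` has a stratification by smooth
  schemes `U j`, each of which is the complement of a scheme of this kind in a smooth projective variety
  whose motive is finite-dimensional in the sense of Kimura and O'Sullivan (such as all varieties
  dominated by products of curves);

the following is true. Write `Q2(X, r)` for the assertion of question Q2 for the scheme `X` and the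
integer `r`: the ranks of the groups `CH^r(X, k)` are finite, almost all are zero, and the order of the
zeta function of `X` at `s = dim X - r` is minus the alternating sum of the ranks.

* The ranks of the `CH^r(A × U, k)` are finite, almost all zero, if and only if this is the case for
  the `CH^(r - c)(U, k)`, `0 ≤ c ≤ dim A`.
* `Q2(U, r - c)` for `0 ≤ c ≤ dim A` implies `Q2(A × U, r)`.
* For every integer `R`: `Q2(A × U, r)` holds for all `r ≤ R` **if and only if** `Q2(U, r)` holds for all
  `r ≤ R`.
* **The conjecture of Bloch and Soule holds for `A × U` if and only if it holds for `U`.**

No case of the conjectures of Tate, Beilinson, Parshin, or Bloch and Soule is assumed. The exceptional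
families do not depend on `U`, not even on its dimension.

**(2)** Let `χ₀` be any nonzero rational polynomial of degree at most `B`, for instance the
characteristic polynomial of Frobenius on the whole cohomology with compact supports of a scheme `U₀`
with total Betti number at most `B`. With the exception of a proportion at most
`C (p ^ t) ^ (-1 / 6) log (p ^ t)` of the families, **all** schemes `U` which are tame relative to `χ₀` are
independent: this is the case if the eigenvalues of Frobenius of `U`, up to powers and up to a group of
rank less than the `g i`, are products of rational numbers, of roots of `χ₀` and of Weil numbers of
degree less than `2 d` (`d ≥ 3`).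

For example (`χ₀ = X - 1`): for almost all families Q2 is true for `A × U` for all linear varieties `U`; and
if `d ≥ 3` for all schemes `U` of dimension one, singular, reducible or open, whose components have
geometric genus less than `d`; or (`χ₀` its characteristic polynomial) for any given scheme `U` of
dimension one.

The idea of the proof: by a sieve (helper521, helper484, and my modules SD, SG) almost all families in
a stratum are such that each pair `α`, `q / α` of roots can be exchanged by a Galois automorphism which
fixes all the other roots of all the `f i`. So a product of roots of the `f i` and of an eigenvalue of
`U` can be a power of `q` only if the roots cancel in pairs. By duality for products `D t` of divisors and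
nilpotence (a theorem of Kimura for `A`) the motive of `A` is the sum of Tate twists, given by the
`D t`, and of a motive on which the Frobenius endomorphism of `A` has no eigenvalue which could
contribute to the higher Chow groups of `A × U` (library `Y156.L`) or to the order of the zeta function of
`A × U` at an integer: new here is that both sides of Q2 for `A × U` and `r` are the sums of those for
`U` and the `r - c t`, where `c t` is the codimension of `D t`, and the induction on `r` which gives the
converse. For cyclic coverings of projective spaces instead of abelian varieties the analogous result
is `HyperplaneCoverings` (helper876) on this page.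
-/

set_option autoImplicit false

namespace Pool.Agent.Results.MP_666bea_ag.EveryScheme

open Polynomial Pool.Agent.N205.SG

open Pool.Agent.N205.RT (BlochSouleForIndep)

/-- `StrataFacts`: the sets of the Weil polynomials with given Newton polygon, or with Newton
polygon on or above a given one, and the sets of those of given `p`-rank, are strata. -/
theorem result :
    (∀ {I : Type} [Fintype I] (g : I → ℕ) (_ : ∀ i, 0 < g i) (d : ℕ) (_ : DimsU g d) (B : ℕ),
      ∃ C : ℝ, ∀ p a t : ℕ, p.Prime → 0 < a → 0 < t → ∀ S : I → Set ℤ[X],
        (∀ i, IsStratum p a (g i) t (S i)) →
        (∀ i, (S i).Finite ∧ (4 ^ g i ≤ p ^ t → (S i).Nonempty)) ∧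
        ({f : I → ℤ[X] | (∀ i, f i ∈ S i) ∧ ¬ BlochSouleForIndep (p ^ a) f}.ncard : ℝ) ≤
          C * (Real.log ((p ^ t : ℕ) : ℝ) * ((p ^ t : ℕ) : ℝ) ^ (-(1 / 6) : ℝ)) *
            ∏ i, ((S i).ncard : ℝ) ∧
        ∀ χ₀ : ℚ[X], χ₀ ≠ 0 → χ₀.natDegree ≤ B →
          ({f : I → ℤ[X] | (∀ i, f i ∈ S i) ∧ ¬ TameIndep g d (p ^ a) χ₀ f}.ncard : ℝ) ≤
            C * (Real.log ((p ^ t : ℕ) : ℝ) * ((p ^ t : ℕ) : ℝ) ^ (-(1 / 6) : ℝ)) *
              ∏ i, ((S i).ncard : ℝ)) ∧
    StrataFacts :=
  ⟨fun g hg d hd B => indep_unif g hg d hd B (fun q f => BlochSouleForIndep q f)
    fun _ hq x hx => Pool.Agent.N205.RT.blochSoule_indep g hg hq.one_lt x hx, strataFacts⟩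

end Pool.Agent.Results.MP_666bea_ag.EveryScheme
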