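import Pool.Agent.N876.CG.ZetaT
import Pool.Agent.W484.CK.Main

/-!
# Orders of zeta functions and ranks of higher Chow groups for products with cyclic coverings branched along hyperplanes

Let `κ` be a finite field with `q = c ^ f` elements, and `𝒱` a class of smooth projective varieties over
`κ`, closed under products, with Chow groups `A` with rational coefficients and a Weil cohomology theory
`H` (framework of helper492 and helper484: `TheoryData`, `IsChow`, `IsWeil`). Let `X_i` be varieties in
`𝒱`, of any dimensions `n_i`, which are models of cyclic coverings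

  `w ^ N_i = ∏ l_{i,k} (x) ^ a_{i,k}`

of projective spaces, branched along hyperplanes `l_{i,k} = 0` over `κ`, with exponents prime to `N_i`,
where `N_i` divides `q - 1` (`IsModel`, see the definitions: the cohomology is generated by the
classes of cycles and a part `T`, pure of weight `n_i`, without invariants under the covering
group, for which the trace formula holds). Let `N` be a common multiple of the `N_i`, and `λ` an
integer such that `IsSmall N λ` holds: for every nonempty finite set `I` of indices and all `j_i` not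
divisible by `N_i` (`i ∈ I`) there is a `u` prime to `N` with
`∑_{i ∈ I} weight X_i (u j_i) + λ / 2 < ∑_{i ∈ I} (n_i / 2 + 1)`; here `weight X j` is the mean over the
orbit `j, c j, …, c ^ (f - 1) j` of the sum of the fractional parts of `j a_k / N_i`.

Let `U` be **any** scheme of finite type over `κ` of dimension `e` (open, or singular; for example a point),
and `Z` a variety in `𝒱` (for example a point). For `X` in `𝒱` let
* `T_k^r(X) = CH^r(X × U, k) ⊗ ℚ`, with the notation of the question (cycles of dimension
  `dim X + e + k - r` on `X × U × Δ^k`),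
* `φ_k` the endomorphism `q ^ e (Fr_U)_*^(-1)` of `T_k`, where `Fr_U` is the Frobenius endomorphism of `U`
  (for `U` smooth this is the pull-back by `Fr_U`),
* `N X n` and `v n` the numbers of points of `X` and of `U` over the extension of degree `n` of `κ`; so the
  zeta function of `X × U` is `ζ(s) = exp (∑ N X n v n q^(-ns) / n)`. If `N X n v n = ∑ W(b) b^n`
  for all `n ≥ 1` (`IsSpectrum`), then `ζ(s) = ∏ (1 - b q^(-s))^(-W(b))` and `-ord_(s=m) ζ(s) = W(q^m)`
  for all integers `m` (`HasOrder`).
On the groups `T_k` act the correspondences between the varieties in `𝒱`, and the product of `φ_k` and the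
pull-back by the Frobenius endomorphism of `X` is `q ^ r` on `T_k^r(X)` (`IsRelative`); they are zero for
`r < 0`. The numbers of points satisfy the Lefschetz trace formula (`IsPointCount`): for the `X_i` the
number `W(b)` is the alternating sum of the multiplicities of the eigenvalue `b` of the Frobenius on the
cohomology, and it is the dimension of the generalized eigenspace if `b` is a power of `q` (theorem of
Deligne: it only occurs in even degrees). Nothing else is used. Let `χ` be a polynomial with rational
coefficients which is satisfied by the `φ_k`, and such that the eigenvalues `α` of the Frobenius on `H_c(U)`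
are zeros of `χ`. Such a polynomial exists if the motive of `U` (with compact supports) is in the
thick triangulated category generated by the motives of products of curves, and then its roots can be
taken to be the numbers `α` and `q ^ e / α`; examples are all varieties `U` with a stratification by open
subvarieties of varieties dominated by products of curves whose complements are again of this type.
We assume that the products `b` of the eigenvalues of the Frobenius on `H(Z)` and the complex roots of
`χ` are of the form `|b| ^ 2 = q ^ j` (theorem of Deligne) and that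
* either `λ = 0` and the cyclotomic polynomial of order `N` is irreducible over the field generated by
  the numbers `b` (for given `Z` and `U` this is true for all `N` prime to the discriminant of this field),
* or `Z × U` is of level `≤ λ`: the numbers `q ^ λ b / b̄` are algebraic integers. This is true if
  `dim Z + dim U ≤ λ`.
Finally the homologically trivial self-correspondences of degree zero of the products `V` of the `X_i`
and `Z` are assumed to be nilpotent (nothing of this kind is assumed for `U`); this holds if `Z` is a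
point (or dominated by a product of curves) and the `X_i` are curves or have `n_i + 2` branch
hyperplanes in general position, by the theorem of Kimura and O'Sullivan.

**Theorem.** Let `V` be the product of `Z` and of finitely many of the `X_i` (pairwise different), and
`d = dim V - dim Z`.
* For every `r`, the ranks of the groups `CH^r(V × U, k)` are finite and zero for almost all `k` if and
  only if those of `CH^l(Z × U, k)` are, for all `l` with `r - d ≤ l ≤ r`.
* If Q2 (finite ranks, and the formula for the order of the zeta function) is true for `Z × U` in the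
  codimensions `r - d ≤ l ≤ r`, then it is true for `V × U` in codimension `r`.
* For every `R`, **Q2 is true for `V × U` in all codimensions `r ≤ R` if and only if it is true for `Z × U` in
  all codimensions `r ≤ R`**. In particular Q2 (for all `r`) is true for `V × U` if and only if it is
  true for `Z × U`; if `Z` is a point, if and only if it is true for `U`.

In particular Q2 is true for `V × U` if `U` is a curve (open, or singular) over `κ` and `Z` is a point.

Examples. (a) Let `X_i` be curves `y ^ N_i = ∏ (x - x_{i,k})` with `N_i` factors, of genus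
`(N_i - 1) (N_i - 2) / 2`, for different prime numbers `N_i` dividing `c - 1`. Then `weight X_i j` is the
residue of `j` modulo `N_i`, and `IsSmall N 0` holds for the product `N` of the `N_i` (take `u` with
`u j_i = 1` modulo `N_i`). (b) Let `X` be the variety `w ^ N = l_1 ⋯ l_N` of dimension `n = N - 2`, with
`N` hyperplanes in general position, for a prime number `N` dividing `c - 1` (the resolutions are
Calabi-Yau varieties). The weight for `u j = 1` is `1`, so `IsSmall N λ` holds for all `λ < n`: the
theorem applies to **all schemes `U` of dimension smaller than `dim X`** with a polynomial `χ`.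

The proof: by the theorem of Stickelberger on Gauss sums and the product formula no product of
eigenvalues of the Frobenius on the parts `T` of several `X_i` and on the cohomology of `Z × U` is a
power of `q`. So only the algebraic classes of `X_i` contribute to the orders of the zeta function of
`X_i × V' × U` at integers, and the intersection pairing on these classes is not degenerate; let
`D j`, `E j` be dual systems of cycles on `X_i`, `p = ∑ E j × D j` the projector on `X_i × V'`, `P` a
polynomial with `P (F) H(X_i × V') ⊆ ∑ D j × H(V')`, and `Q (x)` the polynomial with the roots `q ^ r / ρ`,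
where `χ (ρ) = 0`. Then `(1 - p) P (F)` is homologically trivial, hence nilpotent; a power of `Q (F)`
is zero on `T^r(X_i × V')`, and `P` and `Q` are prime to each other, so `1 - p` is zero on
`T^r(X_i × V')` (the idea to play the eigenvalues of Frobenius off against nilpotence is due to Soulé,
Geisser and Kahn). So the difference of the two sides of the formula in codimension `r` for
`X_i × V' × U` is the sum over `j` of those for `V' × U` in codimension `r - deg D j`, and these
differences are zero for small `r`.

helper876; built on the library of the starting files (estimates of sums over hyperplane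
arrangements by Gauss sums: helper528 and helpers 800, 883, 135, 563, 271, 540, 400, 999, 782, 605,
346; traces on eigenspaces: helper117; correspondences, nilpotence and the Kunneth formula: helpers
484, 492, 550; the idea to work relative to a scheme: helper156).
-/

set_option autoImplicit false

open Finset Polynomial CategoryTheory AlgebraicGeometry

namespace Pool.Agent.Results.MP_666bea_ag.HyperplaneCoverings

open Pool.Agent.H914 Pool.Agent.H914.VarClass Pool.Agent.H914.VarClass.Obj Pool.Agent.W492.BB
  Pool.Agent.W484.CK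

/-- A cyclic covering `w ^ N = ∏ l_k (x) ^ a_k` of the projective space of dimension `n`, and a root of
unity `z`. -/
structure Covering (κ : Type) [Field κ] : Type where
  N : ℕ
  n : ℕ
  s : ℕ
  l : Fin s → Fin (n + 1) → κ
  a : Fin s → ℕ
  z : κ

/-- `z` has order `N ≥ 2`, the exponents are prime to `N` and their sum is divisible by `N`. -/
structure Covering.IsAdmissible {κ : Type} [Field κ] (X : Covering κ) : Prop where
  two_le : 2 ≤ X.N
  root : IsPrimitiveRoot X.z X.N
  coprime : ∀ k, (X.a k).Coprime X.N
  dvd : X.N ∣ ∑ k, X.a k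

/-- The value of the form `∏ l_k ^ a_k` at a vector with coordinates in `L`. -/
def Covering.value {κ : Type} [Field κ] (X : Covering κ) (L : Type) [Field L] [Algebra κ L]
    (x : Fin (X.n + 1) → L) : L :=
  ∏ k, (∑ t, algebraMap κ L (X.l k t) * x t) ^ X.a k

/-- The number of vectors over `L` where the form is not zero. -/
noncomputable def Covering.openCount {κ : Type} [Field κ] (X : Covering κ) (L : Type) [Field L]
    [Algebra κ L] : ℕ :=
  Set.ncard {x : Fin (X.n + 1) → L | X.value L x ≠ 0}

/-- The number of vectors over `L` where the form is not zero and its power with the exponent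
`(|L| - 1) / N` is `z ^ i`. -/
noncomputable def Covering.fixCount {κ : Type} [Field κ] (X : Covering κ) (L : Type) [Field L]
    [Fintype L] [Algebra κ L] (i : ℕ) : ℕ :=
  Set.ncard {x : Fin (X.n + 1) → L | X.value L x ≠ 0 ∧
    (X.value L x) ^ ((Fintype.card L - 1) / X.N) = algebraMap κ L X.z ^ i}

/-- `T` is the part without invariants of the cohomology of degree `n` of a smooth projective model
of the covering, with the Frobenius `Φ` and the generator `g` of the covering group. The trace
of `Φ ^ [L : κ] g ^ i` is up to the sign the difference of the number of fixed points over the open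
set `∏ l_k ≠ 0` of projective space (`N` points over each point where the form has the power residue
symbol `z ^ i`) and of the number of the points of this open set. -/
structure IsCyclicCovering {κ : Type} [Field κ] (X : Covering κ) {K T : Type} [Field K]
    [AddCommGroup T] [Module K T] (Φ g : Module.End K T) : Prop where
  commute : Commute Φ g
  order : g ^ X.N = 1
  invariants : ∀ t, g t = t → t = 0
  lefschetz : ∀ (L : Type) [Field L] [Fintype L] [Algebra κ L] (i : ℕ),
    ((Fintype.card L : K) - 1) *
        ((-1) ^ X.n * LinearMap.trace K T (Φ ^ Module.finrank κ L * g ^ i)) =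
      (X.N : K) * (X.fixCount L i : K) - (X.openCount L : K)

/-- The mean over `j, c j, …, c ^ (f - 1) j` of the sum of the fractional parts of `j a_k / N`. -/
def Covering.weight {κ : Type} [Field κ] (X : Covering κ) (c f j : ℕ) : ℚ :=
  (∑ k, ∑ t ∈ range f, (((j * X.a k * c ^ t) % X.N : ℕ) : ℚ)) / (f * X.N)

/-- The condition on the exponents. -/
def IsSmall {κ : Type} [Field κ] {ι : Type} (X : ι → Covering κ) (c f N lam : ℕ) : Prop :=
  ∀ I : Finset ι, I.Nonempty → ∀ j : ι → ℕ, (∀ i ∈ I, ¬ (X i).N ∣ j i) →
    ∃ u : ℕ, u.Coprime N ∧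
      ∑ i ∈ I, (X i).weight c f (u * j i) + (lam : ℚ) / 2 < ∑ i ∈ I, (((X i).n : ℚ) / 2 + 1)

/-- The space `H` is generated by the subspace `P` (the classes of algebraic cycles) and a subspace `T`
which is stable under `Φ` (the Frobenius) and `g` (a generator of the covering group), `T` is the part
without invariants (`IsCyclicCovering`), and pure of weight `n`. The complex numbers enter by an
embedding `τ` of the coefficient field. -/
def IsCoveringCohomology {κ : Type} [Field κ] [Fintype κ] (C : Covering κ) {K H : Type} [Field K]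
    [AddCommGroup H] [Module K H] (P : Submodule K H) (Φ g : Module.End K H) (τ : K →+* ℂ) : Prop :=
  ∃ (T : Submodule K H) (hΦ : ∀ t ∈ T, Φ t ∈ T) (hg : ∀ t ∈ T, g t ∈ T), P ⊔ T = ⊤ ∧
    IsCyclicCovering C (Φ.restrict hΦ) (g.restrict hg) ∧
    ∀ α, Module.End.HasEigenvalue (Φ.restrict hΦ) α → ‖τ α‖ ^ 2 = (Fintype.card κ : ℝ) ^ C.n

/-- The images of the eigenvalues of `Φ` under the embedding `τ` of the coefficient field. -/
def eigenvalues {K H : Type} [Field K] [AddCommGroup H] [Module K H] (Φ : Module.End K H)
    (τ : K →+* ℂ) : Set ℂ :=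
  {b | ∃ β : K, Φ.HasEigenvalue β ∧ τ β = b}

/-- The conditions on a set `B` of complex numbers: they are algebraic with `|b| ^ 2 = q ^ j`, and
either `lam = 0` and the cyclotomic polynomial of order `N` is irreducible over the field generated
by `B`, or `B` is of level at most `lam`. -/
def IsGoodBase (q N lam : ℕ) (B : Set ℂ) : Prop :=
  (∀ b ∈ B, IsAlgebraic ℚ b ∧ ∃ j : ℕ, ‖b‖ ^ 2 = (q : ℝ) ^ j) ∧
    ((lam = 0 ∧ Irreducible (cyclotomic N (IntermediateField.adjoin ℚ B))) ∨
      ∀ b ∈ B, IsIntegral ℤ ((q : ℂ) ^ lam * b / starRingEnd ℂ b))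

/-- An endomorphism of an algebra as a linear map. -/
def ofHom {K H : Type} [Field K] [Ring H] [Algebra K H] (g : H →ₐ[K] H) : Module.End K H :=
  g.toLinearMap

/-- `IsCoveringCohomology` for endomorphisms of an algebra. -/
def IsCoveringAlgebra {κ : Type} [Field κ] [Fintype κ] (C : Covering κ) {K H : Type} [Field K]
    [Ring H] [Algebra K H] (P : Submodule K H) (φ g : H →ₐ[K] H) (τ : K →+* ℂ) : Prop :=
  IsCoveringCohomology C P (ofHom φ) (ofHom g) τ

/-- The images of the eigenvalues of an endomorphism of an algebra. -/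
def eigenvaluesOf {K H : Type} [Field K] [Ring H] [Algebra K H] (φ : H →ₐ[K] H) (τ : K →+* ℂ) :
    Set ℂ :=
  eigenvalues (ofHom φ) τ

/-- The images under `τ` of the products of the eigenvalues of an endomorphism of an algebra and
the roots of the polynomial `χ`. -/
def productsOf {K H : Type} [Field K] [CharZero K] [Ring H] [Algebra K H] (φ : H →ₐ[K] H)
    (χ : ℚ[X]) (τ : K →+* ℂ) : Set ℂ :=
  {b | ∃ β ρ : K, (ofHom φ).HasEigenvalue β ∧ aeval ρ χ = 0 ∧ τ (β * ρ) = b}

/-- The field `κ` has `c ^ f` elements, the coverings are admissible, `N` is a common multiple of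
their degrees, and `IsSmall` holds. -/
structure IsSmallSystem {κ : Type} [Field κ] [Fintype κ] {ι : Type} (C : ι → Covering κ)
    (c f N lam : ℕ) : Prop where
  card : Fintype.card κ = c ^ f
  admissible : ∀ i, (C i).IsAdmissible
  pos : 0 < N
  dvd : ∀ i, (C i).N ∣ N
  small : IsSmall C c f N lam

section geometry

variable {κ : Type} [Field κ] {𝒱 : VarClass κ} {A : TheoryData.{0, 0, 0} 𝒱 ℚ} {K : Type} [Field K]

/-- The span of the classes of cycles on `X`. -/
def cycleSpan (H : WeilTheoryData.{0, 0, 0} A K) (X : 𝒱.Obj) : Submodule K (H.A X) :=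
  Submodule.span K {a | ∃ (i : ℕ) (z : A.A X), A.Deg i z ∧ a = H.cl z}

/-- `X`, with the Frobenius endomorphism `φ`, is a model of the covering `C`, with a generator `g` of
the covering group. -/
def IsModel [Fintype κ] (C : Covering κ) (H : WeilTheoryData.{0, 0, 0} A K) {X : 𝒱.Obj}
    (φ : X ⟶ X) (τ : K →+* ℂ) : Prop :=
  ∃ g : X ⟶ X, IsCoveringAlgebra C (cycleSpan H X) (H.pull φ) (H.pull g) τ

/-- There is a divisor on `X` whose power with the exponent `dim X` is not zero in the cohomology. -/
def IsPolarized (H : WeilTheoryData.{0, 0, 0} A K) (X : 𝒱.Obj) : Prop :=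
  ∃ D : A.A X, A.Deg 1 D ∧ H.cl D ^ X.dim ≠ 0

/-- The product `X i₁ × (X i₂ × (⋯ × Z))`. -/
noncomputable def productOf {ι : Type} (X : ι → 𝒱.Obj) (Z : 𝒱.Obj) : List ι → 𝒱.Obj
  | [] => Z
  | i :: L => (X i).prod (productOf X Z L)

/-- The sum of the dimensions of the `X i`. -/
def dimension {ι : Type} (X : ι → 𝒱.Obj) : List ι → ℕ
  | [] => 0
  | i :: L => (X i).dim + dimension X L

/-- `F` is the Frobenius endomorphism of the varieties over `κ`, the varieties `X i` are models of the
coverings, and `Z` and the polynomial `χ` satisfy `IsGoodBase`. -/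
structure IsCoveringSystem [Fintype κ] [CharZero K] {ι : Type} (C : ι → Covering κ) (N lam : ℕ)
    (H : WeilTheoryData.{0, 0, 0} A K) (τ : K →+* ℂ) (F : ∀ X : 𝒱.Obj, X ⟶ X) (X : ι → 𝒱.Obj)
    (Z : 𝒱.Obj) (χ : ℚ[X]) : Prop where
  standard : IsStandard H
  frobenius : ∀ X, IsFrobenius A (F X) (Fintype.card κ)
  product : ∀ X Y, F (X.prod Y) = prodMap (F X) (F Y)
  model : ∀ i, IsModel (C i) H (F (X i)) τ
  polarized : ∀ i, IsPolarized H (X i)
  algebraic : ∀ b ∈ eigenvaluesOf (H.pull (F Z)) τ, IsAlgebraic ℚ b
  ne_zero : χ.coeff 0 ≠ 0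
  base : IsGoodBase (Fintype.card κ) N lam (productsOf (H.pull (F Z)) χ τ)

/-- The operation of the Frobenius endomorphism of `X` on the theory `T`. -/
noncomputable def frobOn (T : MotivicData A) (F : ∀ X : 𝒱.Obj, X ⟶ X) (X : 𝒱.Obj) (t : T.M X) :
    T.M X :=
  T.app (A.down (Obj.lift (F X) (𝟙 X)) 1) t

/-- The maps `φ` commute with the operation of correspondences. -/
def IsCommuting (T : MotivicData A) (φ : ∀ X, T.M X →ₗ[ℚ] T.M X) : Prop :=
  ∀ {X Y : 𝒱.Obj} (Γ : A.A (X.prod Y)) (t : T.M X), φ Y (T.app Γ t) = T.app Γ (φ X t)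

/-- The product of `φ` and the Frobenius endomorphism of `X` is `q ^ n` on `T^n(X)`. -/
def IsPower (T : MotivicData A) (φ : ∀ X, T.M X →ₗ[ℚ] T.M X) (F : ∀ X : 𝒱.Obj, X ⟶ X) (q : ℕ) :
    Prop :=
  ∀ {X : 𝒱.Obj} {n : ℤ} {t : T.M X}, T.Deg n t → frobOn T F X (φ X t) = (q : ℚ) ^ n • t

/-- `χ (φ) t = 0`. -/
def IsKilled {M : Type} [AddCommGroup M] [Module ℚ M] (φ : M →ₗ[ℚ] M) (χ : ℚ[X]) (t : M) : Prop :=
  aeval φ χ t = 0

/-- `T` is a theory with correspondences with an endomorphism `φ` (the Frobenius endomorphism of a
scheme `U`) such that `φ` commutes with correspondences, and on `T^n(X)` the product of `φ` and the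
Frobenius endomorphism of `X` is `q ^ n` and `χ (φ)` is zero. -/
structure IsRelative (T : MotivicData A) (φ : ∀ X, T.M X →ₗ[ℚ] T.M X) (F : ∀ X : 𝒱.Obj, X ⟶ X)
    (q : ℕ) (χ : ℚ[X]) : Prop where
  motivic : IsMotivic T
  comm : IsCommuting T φ
  power : IsPower T φ F q
  root : ∀ {X : 𝒱.Obj} {n : ℤ} {t : T.M X}, T.Deg n t → IsKilled (φ X) χ t

/-- `N n = ∑ W(b) b^n` for all `n ≥ 1`: the function `exp (∑ N n t^n / n)` is the product of the
`(1 - b t)^(-W(b))`. -/
def IsSpectrum (N : ℕ → ℕ) (W : K →₀ ℤ) : Prop :=
  ∀ n, 1 ≤ n → (N n : K) = W.sum fun b m => (m : K) * b ^ n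

/-- If the `N n` are the numbers of points of a scheme over the extensions of `κ` of degree `n`,
`|κ| = q`, then `-c` is the order of its zeta function at `s = m`. The coefficients are in the
field `K`. -/
def HasOrder (K : Type) [Field K] (q : ℕ) (N : ℕ → ℕ) (m c : ℤ) : Prop :=
  ∃ W : K →₀ ℤ, IsSpectrum N W ∧ W ((q : K) ^ m) = c

/-- The multiplicity of the power `q ^ j` is the dimension of the generalized eigenspace. -/
def IsMultiplicity {H : Type} [AddCommGroup H] [Module K H] (Φ : Module.End K H) (q : ℕ)
    (W : K →₀ ℤ) : Prop :=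
  ∀ j : ℕ, W ((q : K) ^ j) = Module.finrank K (Φ.maxGenEigenspace ((q : K) ^ j))

/-- Trace formula and purity for the numbers `N n`: they are the power sums of the eigenvalues of
the endomorphism `φ` of the cohomology with multiplicities `W(b)`, and for powers of `q` these are the
dimensions of the generalized eigenspaces. -/
def IsTraceFormula {H : Type} [Ring H] [Algebra K H] (φ : H →ₐ[K] H) (q : ℕ) (N : ℕ → ℕ) : Prop :=
  ∃ W : K →₀ ℤ, IsSpectrum N W ∧ (∀ b, W b ≠ 0 → (ofHom φ).HasEigenvalue b) ∧
    IsMultiplicity (ofHom φ) q W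

/-- `N X n` and `v n` are the numbers of points of `X` and of the scheme `U` over the extension of
degree `n`. -/
structure IsPointCount [CharZero K] (H : WeilTheoryData.{0, 0, 0} A K) (F : ∀ X : 𝒱.Obj, X ⟶ X)
    (q : ℕ) {ι : Type} (X : ι → 𝒱.Obj) (Z : 𝒱.Obj) (χ : ℚ[X]) (N : 𝒱.Obj → ℕ → ℕ) (v : ℕ → ℕ) :
    Prop where
  product : ∀ X Y n, N (X.prod Y) n = N X n * N Y n
  covering : ∀ i, IsTraceFormula (H.pull (F (X i))) q (N (X i))
  base : ∃ W : K →₀ ℤ, IsSpectrum (N Z) W ∧
    ∀ b, W b ≠ 0 → (ofHom (H.pull (F Z))).HasEigenvalue b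
  relative : ∃ W : K →₀ ℤ, IsSpectrum v W ∧ ∀ b, W b ≠ 0 → aeval b χ = 0

/-- `T^n(X) = 0` for `n < 0`. -/
def IsEffective (T : MotivicData A) : Prop :=
  ∀ (X : 𝒱.Obj) (n : ℤ) (t : T.M X), n < 0 → T.Deg n t → t = 0

/-- The ranks of the `T_k^r(X)` are finite and almost all are zero. -/
def HasFiniteRanks (T : ℕ → MotivicData A) (X : 𝒱.Obj) (r : ℤ) : Prop :=
  (∀ k, Module.Finite ℚ ((T k).gr X r)) ∧ ∃ k₀, ∀ k, k₀ ≤ k → (T k).gr X r = ⊥

/-- The sum of the `(-1)^k rank T_k^r(X)`. -/
noncomputable def alternatingSum (T : ℕ → MotivicData A) (X : 𝒱.Obj) (r : ℤ) : ℤ :=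
  ∑ᶠ k : ℕ, (-1) ^ k * (Module.finrank ℚ ((T k).gr X r) : ℤ)

/-- The assertion of Q2 for `X × U` and `r`, where `e = dim U`. -/
def BlochSoule (K : Type) [Field K] (q : ℕ) (N : 𝒱.Obj → ℕ → ℕ) (v : ℕ → ℕ)
    (T : ℕ → MotivicData A) (e : ℤ) (X : 𝒱.Obj) (r : ℤ) : Prop :=
  HasFiniteRanks T X r ∧
    HasOrder K q (fun n => N X n * v n) (X.dim + e - r) (alternatingSum T X r)

/-- The conclusions for the product `V` of the `X i` with `i ∈ L` and of `Z`. -/
structure Conclusions (K : Type) [Field K] (q : ℕ) {ι : Type} (X : ι → 𝒱.Obj) (Z : 𝒱.Obj)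
    (N : 𝒱.Obj → ℕ → ℕ) (v : ℕ → ℕ) (T : ℕ → MotivicData A) (e : ℤ) (L : List ι) : Prop where
  ranks : ∀ r : ℤ, HasFiniteRanks T (productOf X Z L) r ↔
    ∀ l : ℤ, r - dimension X L ≤ l → l ≤ r → HasFiniteRanks T Z l
  formula : ∀ r : ℤ, (∀ l : ℤ, r - dimension X L ≤ l → l ≤ r → BlochSoule K q N v T e Z l) →
    BlochSoule K q N v T e (productOf X Z L) r
  equivalent : ∀ R : ℤ, (∀ r ≤ R, BlochSoule K q N v T e (productOf X Z L) r) ↔
    ∀ r ≤ R, BlochSoule K q N v T e Z r

end geometry

/-- **Orders of zeta functions and ranks of higher Chow groups for products with cyclic coverings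
branched along hyperplanes.** -/
theorem result (c : ℕ) [Fact c.Prime] (κ : Type) [Field κ] [Fintype κ] [CharP κ c] {ι : Type}
    (C : ι → Covering κ) (f N lam : ℕ) (hC : IsSmallSystem C c f N lam)
    {𝒱 : VarClass κ} (A : TheoryData.{0, 0, 0} 𝒱 ℚ) [IsChow A] {K : Type} [Field K]
    [IsAlgClosed K] [CharZero K] (H : WeilTheoryData.{0, 0, 0} A K) [IsWeil H] (τ : K →+* ℂ)
    (F : ∀ X : 𝒱.Obj, X ⟶ X) (X : ι → 𝒱.Obj) (Z : 𝒱.Obj) (χ : ℚ[X])
    (h : IsCoveringSystem C N lam H τ F X Z χ) (hnil : ∀ L, Nilpotence H (productOf X Z L))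
    (T : ℕ → MotivicData A) (φ : ∀ k X, (T k).M X →ₗ[ℚ] (T k).M X)
    (hT : ∀ k, IsRelative (T k) (φ k) F (Fintype.card κ) χ) (heff : ∀ k, IsEffective (T k))
    (P : 𝒱.Obj → ℕ → ℕ) (v : ℕ → ℕ) (hP : IsPointCount H F (Fintype.card κ) X Z χ P v) (e : ℤ)
    (L : List ι) (hL : L.Nodup) :
    Conclusions K (Fintype.card κ) X Z P v T e L := by
  obtain ⟨hf, hC, hN, hdN, hsmall⟩ := hC
  obtain ⟨hstd, hfrob, hprod, hmodel, hpol, halg, hχ0, hbase⟩ := h
  have hfin := hstd.finite
  have hf0 : 0 < f := by
    rcases Nat.eq_zero_or_pos f with h | h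
    · rw [h, pow_zero] at hf
      have := Fintype.one_lt_card (α := κ)
      omega
    · exact h
  choose g T' hσT hgT hT' hcov hpure using hmodel
  have hsmall' : ∀ I : Finset ι, I.Nonempty → Pool.Agent.N876.UV.SmallI c f N lam
      (fun i => (C i).N) (fun i => (C i).n) (fun i => (C i).s) (fun i => (C i).a) I := by
    intro I hI j hj
    obtain ⟨u, hu, hlt⟩ := hsmall I hI j hj
    refine ⟨u, hu, Pool.Agent.N876.UV.weight_conv' hf0 hN hdN I
      (fun i => ∑ k, ∑ t ∈ range f, (u * j i * (C i).a k * c ^ t) % (C i).N) ?_⟩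
    refine lt_of_le_of_lt (le_of_eq ?_) hlt
    congr 1
    refine sum_congr rfl fun i _ => ?_
    unfold Covering.weight
    push_cast
    rfl
  have hcov' : ∀ i, Pool.Agent.N876.TC.IsCov (C i).N (C i).l (C i).a (C i).z
      ((ofHom (H.pull (F (X i)))).restrict (hσT i)) ((ofHom (H.pull (g i))).restrict (hgT i)) :=
    fun i => ⟨(hcov i).commute, (hcov i).order, (hcov i).invariants,
      fun L _ _ _ t => (hcov i).lefschetz L t⟩
  have hres : ∀ SZ, Pool.Agent.N876.FL.OtherOK τ (Fintype.card κ) N lam SZ →
      Pool.Agent.N876.FL.NoResF (Fintype.card κ : K)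
        (fun i => {α | Module.End.HasEigenvalue
          ((ofHom (H.pull (F (X i)))).restrict (hσT i)) α}) SZ :=
    fun SZ hSZ => Pool.Agent.N876.FL.nores_cov hN (fun i => (hC i).two_le) hdN κ hf
      (fun i => (hC i).root) (fun i => (C i).l) (fun i => (C i).a) (fun i => (hC i).coprime) τ
      hcov' hsmall' hpure hSZ
  have htw : ∀ L : List ι, productOf X Z L = Pool.Agent.N876.CG.tw X Z L := by
    intro L
    induction L with
    | nil => rfl
    | cons i L ih => rw [productOf, Pool.Agent.N876.CG.tw, ih]
  have hdim : ∀ L : List ι, dimension X L = Pool.Agent.N876.CG.dims X L := by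
    intro L
    induction L with
    | nil => rfl
    | cons i L ih => rw [dimension, Pool.Agent.N876.CG.dims, ih]
  have hq0 : Fintype.card κ ≠ 0 := Fintype.card_ne_zero
  have hsys : Pool.Agent.N876.CG.Cr H F (Fintype.card κ) X Z
      (fun i => {α | Module.End.HasEigenvalue
          ((ofHom (H.pull (F (X i)))).restrict (hσT i)) α}) {ρ | aeval ρ χ = 0} :=
    { std := isStandard_bridge hstd
      one_lt := Fintype.one_lt_card
      frob := fun X => isFrobenius_bridge (hfrob X)
      prod := hprod
      cg := fun i => ⟨T' i, hσT i, hT' i, fun α hα => hα⟩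
      int := fun i α hα => Pool.Agent.N876.CG.int_cov hN (fun i => (hC i).two_le) hdN κ hf
        (fun i => (hC i).root) (fun i => (C i).l) (fun i => (C i).a) (fun i => (hC i).coprime) τ
        hcov' hsmall' hpure i α hα
      ne := fun i α hα h0 => by
        have h1 := hpure i α hα
        rw [h0, map_zero, norm_zero, zero_pow two_ne_zero] at h1
        have h2 : (0 : ℝ) < (Fintype.card κ : ℝ) := by exact_mod_cast Nat.pos_of_ne_zero hq0
        exact (pow_pos h2 _).ne h1
      intZ := fun β hβ => Pool.Agent.N876.CG.integral_of_emb τ (halg _ ⟨β, hβ, rfl⟩)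
      res := by
        have himg : (τ '' {γ | ∃ β ρ, (Pool.Agent.W484.CH.frob H (F Z)).HasEigenvalue β ∧
            ρ ∈ {ρ : K | aeval ρ χ = 0} ∧ γ = β * ρ}) = productsOf (H.pull (F Z)) χ τ := by
          ext b
          constructor
          · rintro ⟨_, ⟨β, ρ, hβ, hρ, rfl⟩, rfl⟩
            exact ⟨β, ρ, hβ, hρ, rfl⟩
          · rintro ⟨β, ρ, hβ, hρ, rfl⟩
            exact ⟨_, ⟨β, ρ, hβ, hρ, rfl⟩, rfl⟩
        refine hres _ ⟨?_, ?_⟩
        · rintro _ ⟨β, ρ, hβ, hρ, rfl⟩
          exact hbase.1 _ ⟨β, ρ, hβ, hρ, rfl⟩
        · rcases hbase.2 with h | h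
          · left
            rw [himg]
            exact h
          · right
            rintro _ ⟨β, ρ, hβ, hρ, rfl⟩
            exact h _ ⟨β, ρ, hβ, hρ, rfl⟩
      res1 := hres _ (Pool.Agent.N876.FL.otherOK_one τ _ _ _) }
  have hrel : ∀ (T : MotivicData A) (φ : ∀ X, T.M X →ₗ[ℚ] T.M X) (χ : ℚ[X]),
      IsRelative T φ F (Fintype.card κ) χ →
      Pool.Agent.N876.CG.RelTheory (toCorr T) φ F (Fintype.card κ) χ := fun T φ χ hT =>
    { corr := toCorr_isCorrTheory hT.motivic
      comm := hT.comm
      power := fun X n t ht => ⟨1, by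
        rw [pow_one, LinearMap.sub_apply, Module.End.mul_apply, LinearMap.smul_apply,
          Module.End.one_apply, sub_eq_zero]
        exact hT.power ht⟩
      poly := fun X n t ht => hT.root ht }
  have hnil' : ∀ (T : MotivicData A), IsMotivic T → ∀ L,
      Pool.Agent.N876.CG.NilT H (toCorr T) (Pool.Agent.N876.CG.tw X Z L) := fun T hT L =>
    Pool.Agent.N876.CG.nilT_of (toCorr_isCorrTheory hT) (by
      rw [← htw L]; exact nilpotence_bridge (hnil L))
  have hsp : ∀ (N : ℕ → ℕ) (W : K →₀ ℤ), IsSpectrum N W ↔
      Pool.Agent.N876.CG.IsSp (fun n => (N n : K)) (MonoidAlgebra.ofCoeff W) := by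
    intro N W
    refine forall_congr' fun n => imp_congr_right fun _ => ?_
    rw [Pool.Agent.N876.CG.ev_apply]
  have hzt : Pool.Agent.N876.CG.Zt H F (Fintype.card κ) X Z {ρ : K | aeval ρ χ = 0}
      (fun X n => (P X n : K)) (fun n => (v n : K)) :=
    { prod := fun X Y n => by
        beta_reduce
        rw [hP.product]
        push_cast
        rfl
      count := fun i => by
        obtain ⟨W, h1, h2, h3⟩ := hP.covering i
        exact ⟨MonoidAlgebra.ofCoeff W, (hsp _ _).1 h1, h2, h3⟩
      base := by
        obtain ⟨W, h1, h2⟩ := hP.base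
        exact ⟨MonoidAlgebra.ofCoeff W, (hsp _ _).1 h1, h2⟩
      rel := by
        obtain ⟨W, h1, h2⟩ := hP.relative
        exact ⟨MonoidAlgebra.ofCoeff W, (hsp _ _).1 h1, h2⟩ }
  have hzs : Pool.Agent.N876.CG.Zs H F (Fintype.card κ) X Z
      (fun i => {α | Module.End.HasEigenvalue
          ((ofHom (H.pull (F (X i)))).restrict (hσT i)) α}) {ρ : K | aeval ρ χ = 0}
      (fun X n => (P X n : K)) (fun n => (v n : K)) (fun k => toCorr (T k)) :=
    { cr := hsys
      zt := hzt
      big := hpol
      corr := fun k => toCorr_isCorrTheory (hT k).motivic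
      kun := fun i L hi hL J _ deg D E hd hN k => hsys.kun hi hL hd hN _ (φ k) χ hχ0
        (fun ρ hρ => hρ) (hrel (T k) (φ k) χ (hT k)) (hnil' (T k) (hT k).motivic (i :: L))
      neg := fun k X r hr => (Submodule.eq_bot_iff _).2 fun t ht => heff k X r t hr ht }
  have hfin' : ∀ X r, HasFiniteRanks T X r ↔
      Pool.Agent.N876.CG.FinR (fun k => toCorr (T k)) X r := fun X r => Iff.rfl
  have hbs : ∀ X r, BlochSoule K (Fintype.card κ) P v T e X r ↔
      Pool.Agent.N876.CG.BS (K := K) (Fintype.card κ) (fun X n => (P X n : K))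
        (fun n => (v n : K)) (fun k => toCorr (T k)) e X r := by
    intro X r
    refine and_congr Iff.rfl ?_
    constructor
    · rintro ⟨W, h1, h2⟩
      refine ⟨MonoidAlgebra.ofCoeff W, ?_, h2⟩
      have h3 := (hsp _ _).1 h1
      push_cast at h3
      exact h3
    · rintro ⟨W, h1, h2⟩
      refine ⟨W.coeff, (hsp _ _).2 ?_, h2⟩
      push_cast
      exact h1
  refine ⟨fun r => ?_, fun r hr => ?_, fun R => ?_⟩
  · rw [htw L, hdim L]
    exact hzs.ranks hL r
  · rw [hbs, htw L]
    rw [hdim L] at hr
    exact hzs.up hL r fun l hl1 hl2 => (hbs Z l).1 (hr l hl1 hl2)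
  · simp only [hbs]
    rw [htw L]
    exact hzs.below hL R

end Pool.Agent.Results.MP_666bea_ag.HyperplaneCoverings
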