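import Pool.Agent.N881.GW.V2
import Pool.Agent.N881.GW.R3

/-!
# The explicit formula for the numbers of points of an arithmetic scheme, and its converse

`X` is a scheme of finite type over `ℤ` and `ζ_X(s) = ∏_x (1 - N(x)^{-s})⁻¹` is its zeta function.
For a function `m : ℂ → ℤ` the existence of a meromorphic continuation of `ζ_X` with the orders `m` is
equivalent to an explicit formula for one sequence of averages of the numbers `#X(𝔽_q)` of points over
finite fields.  Nothing is assumed about the growth of the continuation, and there is no functional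
equation.
-/

set_option autoImplicit false

open CategoryTheory AlgebraicGeometry

namespace Pool.Agent.Results.MP_666bea_ag.PointCountExplicitFormula

/-- The closed points of `X`. -/
abbrev ClosedPoint (X : Scheme.{0}) : Type := {x : X // IsClosed ({x} : Set X)}

/-- The number `N(x)` of elements of the residue field. -/
noncomputable def N {X : Scheme.{0}} (x : ClosedPoint X) : ℕ := Nat.card (X.residueField x.1)

/-- The zeta function `ζ_X(s) = ∏_x (1 - N(x)^{-s})⁻¹`. -/
noncomputable def zeta (X : Scheme.{0}) (s : ℂ) : ℂ :=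
  ∏' x : ClosedPoint X, (1 - (N x : ℂ) ^ (-s))⁻¹

/-- The number `#X(𝔽_q)` of points of `X` over the field with `q = p ^ n` elements. -/
noncomputable def points (X : Scheme.{0}) (p : Nat.Primes) (n : ℕ) : ℕ :=
  haveI : Fact (p : ℕ).Prime := ⟨p.2⟩
  Nat.card (Spec (CommRingCat.of (GaloisField (p : ℕ) n)) ⟶ X)

/-- The Gaussian average at `x` of the numbers of points, `q = p ^ n`:
`√(a/(π log x)) ∑_{p, n ≥ 1} #X(𝔽_q) log p q^{-e} exp(-a (log q - log x)² / log x)`. -/
noncomputable def average (X : Scheme.{0}) (e a x : ℝ) : ℂ :=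
  (√(a / (Real.pi * Real.log x)) : ℂ) *
    ∑' q : Nat.Primes × ℕ, (points X q.1 (q.2 + 1) : ℂ) * (Real.log ((q.1 : ℕ) : ℝ) : ℂ) *
      ((((q.1 : ℕ) : ℝ) ^ (-((q.2 + 1) * e)) : ℝ) : ℂ) *
      (Real.exp (-(a * ((q.2 + 1) * Real.log ((q.1 : ℕ) : ℝ) - Real.log x) ^ 2
        / Real.log x)) : ℂ)

/-- The sum of `m(r) x^{w + w²/(4a)}`, `w = r - e`, over the `r` with `Re w > -2a` and
`Re (w + w²/(4a)) > -κ`.  For `κ = a` these are the `r` with `|Im w| < Re w + 2a`. -/
noncomputable def contribution (m : ℂ → ℤ) (e a κ x : ℝ) : ℂ :=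
  ∑ᶠ r ∈ {r : ℂ | m r ≠ 0 ∧ -(2 * a) < (r - e).re ∧
      -κ < ((r - e) + (r - e) ^ 2 / (4 * a)).re},
    (m r : ℂ) * (x : ℂ) ^ ((r - e) + (r - e) ^ 2 / (4 * a))

/-- The explicit formula with the orders `m` and the error `O(x^{-κ})`: there is a `C` such that
`|average + contribution| ≤ C x^{-κ}` for `x ≥ X₀`. -/
def ExplicitFormula (X : Scheme.{0}) (m : ℂ → ℤ) (e a κ X₀ : ℝ) : Prop :=
  ∃ C : ℝ, ∀ x : ℝ, X₀ ≤ x → ‖average X e a x + contribution m e a κ x‖ ≤ C * x ^ (-κ)

/-- `m` vanishes for `Re r > e` and, for every `b < δ`, has finitely many nonzero values in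
every bounded part of the half-plane `Re r > e - b`. -/
def IsDivisor (m : ℂ → ℤ) (e δ : ℝ) : Prop :=
  (∀ r : ℂ, e < r.re → m r = 0) ∧
    ∀ b R : ℝ, b < δ → {r : ℂ | m r ≠ 0 ∧ e - b < r.re ∧ |r.im| ≤ R}.Finite

/-- `∑_x N(x)^{-σ}` converges for all `σ > e`.  For `e = dim X` this is the convergence stated in the
problem. -/
def Converges (X : Scheme.{0}) (e : ℝ) : Prop :=
  ∀ σ : ℝ, e < σ → Summable fun x : ClosedPoint X => (N x : ℝ) ^ (-σ)

/-- **The explicit formula for numbers of points and its converse.**  Let `X` be a scheme of finite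
type over `ℤ`.  There is an `e ≥ 0` such that `∑_x N(x)^{-σ}` converges for all `σ > e`.  For every such
`e` (for example the dimension of `X`):

1. The Euler product `ζ_X(s)` converges for `Re s > e`.
2. Let `δ > 0` and let `m` be a locally finite family of integers in `Re s > e - δ`, `0` for
   `Re s > e`.  The following are equivalent: `ζ_X` has a meromorphic continuation to `Re s > e - δ`
   with the order `m(s)` at every `s`; for all `0 < k < δ` and all `a ≥ k/2` the explicit formula holds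
   with the error `O(x^{-(k - k²/(4a))})`; for all `0 < k < δ` and all large `a` it holds with the error
   `O(x^{-k})`; for all `0 < k < δ` there are arbitrarily large `a` for which it holds with the error
   `O(x^{-k})`.
3. Let `m` be a locally finite family of integers in `ℂ`, `0` for `Re s > e`.  The following are
   equivalent: `ζ_X` has a meromorphic continuation to `ℂ` with the order `m(s)` at every `s`; for all
   `a > 0` the explicit formula holds with the error `O(x^{-a})`; for all `k` there are arbitrarily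
   large `a` for which it holds with the error `O(x^{-k})`.
4. `ζ_X` has a meromorphic continuation to `ℂ` if and only if there is a locally finite family `m`,
   `0` for `Re s > e`, such that for all `a > 0` the explicit formula holds with the error
   `O(x^{-a})`. -/
theorem result (X : Scheme.{0}) (f : X ⟶ Spec (CommRingCat.of ℤ)) (_ : LocallyOfFiniteType f)
    (_ : QuasiCompact f) :
    (∃ e : ℝ, 0 ≤ e ∧ Converges X e) ∧
    ∀ e : ℝ, 0 ≤ e → Converges X e →
    (∀ s : ℂ, e < s.re → Multipliable fun x : ClosedPoint X => (1 - (N x : ℂ) ^ (-s))⁻¹) ∧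
    (∀ δ : ℝ, 0 < δ → ∀ m : ℂ → ℤ, IsDivisor m e δ → List.TFAE [
      ∃ F : ℂ → ℂ, (∀ s : ℂ, e < s.re → F s = zeta X s) ∧
        ∀ s : ℂ, e - δ < s.re →
          MeromorphicAt F s ∧ meromorphicOrderAt F s = (m s : WithTop ℤ),
      ∀ k : ℝ, 0 < k → k < δ → ∀ a : ℝ, k ≤ 2 * a →
        ExplicitFormula X m e a (k - k ^ 2 / (4 * a)) 2,
      ∀ k : ℝ, 0 < k → k < δ → ∃ a₀ : ℝ, ∀ a : ℝ, a₀ ≤ a →
        ExplicitFormula X m e a k 2,
      ∀ k : ℝ, 0 < k → k < δ → ∀ a₀ : ℝ, ∃ a : ℝ, a₀ ≤ a ∧ ∃ X₀ : ℝ,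
        ExplicitFormula X m e a k X₀]) ∧
    (∀ m : ℂ → ℤ, (∀ δ : ℝ, IsDivisor m e δ) → List.TFAE [
      ∃ F : ℂ → ℂ, (∀ s : ℂ, e < s.re → F s = zeta X s) ∧
        ∀ s : ℂ, MeromorphicAt F s ∧ meromorphicOrderAt F s = (m s : WithTop ℤ),
      ∀ a : ℝ, 0 < a → ExplicitFormula X m e a a 2,
      ∀ k a₀ : ℝ, ∃ a : ℝ, a₀ ≤ a ∧ ∃ X₀ : ℝ, ExplicitFormula X m e a k X₀]) ∧
    ((∃ F : ℂ → ℂ, (∀ s : ℂ, e < s.re → F s = zeta X s) ∧ ∀ s : ℂ, MeromorphicAt F s) ↔
      ∃ m : ℂ → ℤ, (∀ δ : ℝ, IsDivisor m e δ) ∧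
        ∀ a : ℝ, 0 < a → ExplicitFormula X m e a a 2) := by
  rename_i h1 h2
  refine ⟨Pool.Agent.N881.GW.scheme_conv X f, fun e he hsum => ?_⟩
  obtain ⟨hcount, c, hLD, hMM, hmul⟩ := Pool.Agent.N881.GW.scheme_data X f he hsum
  have hL : ∀ s, Pool.Agent.Q193.Zeta.zeta X s = zeta X s := fun s => rfl
  have havg : ∀ a x : ℝ, Pool.Agent.N881.GW.pavg X e a x = average X e a x := fun a x => rfl
  simp only [havg] at hMM
  have hE : ∀ m a k X₀, ExplicitFormula X m e a k X₀ ↔
      Pool.Agent.N881.GW.Fm (average X e) m e a k X₀ := fun m a k X₀ => Iff.rfl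
  refine ⟨hmul, fun δ hδ m hm => ?_, fun m hm => ?_, ?_⟩
  · have key := hLD.half (e := e) (L := zeta X) hMM hm.1 (S := {δ})
      (fun b hb => by
        rw [Set.mem_singleton_iff] at hb
        rw [hb]
        exact hδ)
      (fun A' _ hb R => by
        obtain ⟨b, hb, hlt⟩ := hb
        rw [Set.mem_singleton_iff] at hb
        rw [hb] at hlt
        exact (hm.2 A' R hlt).subset fun r hr => ⟨hr.1, hr.2.1, hr.2.2.le⟩)
    have hsing : ∀ {t : ℝ}, (∃ b ∈ ({δ} : Set ℝ), t < b) ↔ t < δ := fun {t} => by simp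
    have hsing2 : ∀ {t : ℝ}, (∃ b ∈ ({δ} : Set ℝ), -b < t - e) ↔ e - δ < t :=
      fun {t} => by
        simp only [Set.mem_singleton_iff, exists_eq_left]
        constructor <;> intro h <;> linarith
    simp only [hsing, hsing2] at key
    exact key
  · exact hLD.whole (e := e) (L := zeta X) hMM (hm 1).1
      (fun A' R => ((hm (A' + 1)).2 A' R (by linarith)).subset
        fun r hr => ⟨hr.1, hr.2.1, hr.2.2.le⟩)
  · constructor
    · rintro ⟨F, h1, h2⟩
      obtain ⟨m, k1, k2, k3⟩ := hLD.exists_orders (e := e) (L := zeta X) h1 h2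
      have hm : ∀ δ : ℝ, IsDivisor m e δ := fun δ => ⟨k1, fun b R _ =>
        (k2 b (R + 1)).subset fun r hr => ⟨hr.1, hr.2.1, lt_of_le_of_lt hr.2.2 (by linarith)⟩⟩
      have key := (hLD.whole (e := e) (L := zeta X) hMM k1 k2).out 0 1
      exact ⟨m, hm, key.1 ⟨F, h1, fun s => ⟨h2 s, k3 s⟩⟩⟩
    · rintro ⟨m, hm, h⟩
      have key := (hLD.whole (e := e) (L := zeta X) hMM (hm 1).1
        (fun A' R => ((hm (A' + 1)).2 A' R (by linarith)).subset
          fun r hr => ⟨hr.1, hr.2.1, hr.2.2.le⟩)).out 0 1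
      obtain ⟨F, h1, h2⟩ := key.2 h
      exact ⟨F, h1, fun s => (h2 s).1⟩

end Pool.Agent.Results.MP_666bea_ag.PointCountExplicitFormula
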