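import Pool.Agent.N19.BR.SchMain
import Pool.Agent.N19.BR.AMain

/-!
# Zeta functions and higher Chow groups of arithmetic schemes: reduction to special base fields

`K` is a number field (`ℚ` for schemes over `ℤ`), `L` a finite Galois extension of `K`, `S₀` a finite set of primes of
`K` and `m ≥ 1`.  There is a relation `∑ e_j [F_j] = [K]`, with coefficient `1` on the right, between the
permutation characters of finite extensions `F_j` of `K` such that the groups `Gal(L F_j / F_j)` are
hyperelementary, each for a prime number `p`, the divisors of `m` prime to `p` divide the local degrees of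
`F_j / K` at the primes above `S₀`, and `F_j` has at most two real places if `p ≠ 2` (`Pool.Agent.N19.BR.Rel`, ...,
`Main`, `AMain`).

For a scheme `X` of finite type over the ring of integers `O_K`, and `X_j = X ×_{O_K} O_{F_j}`, we prove:
* `∑ e_j #X_j(k) = #X(k)` for ALL finite fields `k` (the primes at which the `F_j` are ramified are included; this
  uses a form of Burnside's lemma for cosets of the inertia group, `Ram`), so that `ζ_X = ∏ ζ_{X_j}^{e_j}` exactly
  (`Sch`);
* `∑ e_j χ_j = χ` for the alternating sums of the dimensions of the elements of representations `V_i` of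
  `Gal(K̄ / K)` fixed by `Gal(K̄ / F_j)` and `Gal(K̄ / K)`; the spaces `V_i` may be infinite-dimensional (`InvRel`, `Inv`,
  `SchMain`).

The definitions are in `Pool.Agent.N19.BR.XDefs`, `ADefs`, `TDefs` and `Defs`.
-/

set_option autoImplicit false

namespace Pool.Agent.Results.MP_666bea_ag.SpecialBaseFields

open CategoryTheory AlgebraicGeometry NumberField IsDedekindDomain
open Pool.Agent.N19.BR.TDef (FieldList)
open Pool.Agent.N19.BR.MDef (HyperelementaryList)
open Pool.Agent.N19.BR.XDef

/-- **Arithmetic schemes over special base fields.**  For every finite Galois extension `L / K` of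
number fields, every finite set `S₀` of primes of `K` and `m ≥ 1` there is a finite list of number fields
`F_j ⊇ K` with integers `e_j`, such that for every `j` there is a prime number `p` for which the Galois group of
`L F_j / F_j` is `p`-hyperelementary, the divisors of `m` prime to `p` divide the local degrees of `F_j / K` at the
primes above `S₀`, and `F_j` has at most two real places if `p ≠ 2`, and such that the following holds for ALL schemes
`X` of finite type over `O_K`, with `X_j = X ×_{O_K} O_{F_j}`:
(1) `ζ_X = ∏ ζ_{X_j}^{e_j}` in some right half-plane;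
(2) if all `ζ_{X_j}` have meromorphic continuations to `U` (for example `U = ℂ`), then so has `ζ_X`;
(3) for all representations `V_i`, `i ≥ 0`, of the absolute Galois group of `K` over `ℚ` (for example the direct limits
of the groups `CH^r(X_F, i) ⊗ ℚ` over the finite extensions `F / K`): if for all `j` the dimensions of the spaces of the
elements of `V_i` fixed by the absolute Galois group of `F_j` are finite, and zero for almost all `i`, then this is also
true for `K`, and the alternating sums `χ_j`, `χ` of the dimensions satisfy `χ = ∑ e_j χ_j`;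
(4) if moreover the `ζ_{X_j}` have meromorphic continuations to `U` with `-ord_{s = a} ζ_{X_j}(s) = χ_j + δ_j`, then
`ζ_X` has a meromorphic continuation to `U`, with `-ord_{s = a} ζ_X(s) = χ + ∑ e_j δ_j`, so the order formula for all the
`X_j` implies it for `X`. -/
theorem result (K : Type) [Field K] [NumberField K] (L : Type) [Field L] [NumberField L]
    [Algebra K L] [IsGalois K L] (S₀ : Set (HeightOneSpectrum (𝓞 K))) (hS₀ : S₀.Finite) (m : ℕ)
    (hm : m ≠ 0) :
    ∃ Y : FieldList K, HyperelementaryList L S₀ m Y ∧
      ∀ (X : Scheme.{0}) (f : X ⟶ Spec (CommRingCat.of (𝓞 K))),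
        LocallyOfFiniteType f → QuasiCompact f →
      (∃ σ : ℝ, ∀ s : ℂ, σ < s.re → zeta X s ≠ 0 ∧
        (∀ j, zeta (baseChange f (Y.F j)) s ≠ 0) ∧
        zeta X s = ∏ j, zeta (baseChange f (Y.F j)) s ^ Y.e j) ∧
      (∀ U : Set ℂ, Region U → (∀ j, ∃ Λ : ℂ → ℂ, Continues U (baseChange f (Y.F j)) Λ) →
        ∃ Λ : ℂ → ℂ, Continues U X Λ) ∧
      ∀ (V : ℕ → Type) [∀ i, AddCommGroup (V i)] [∀ i, Module ℚ (V i)]
        (ρ : ∀ i, Representation ℚ Gal(AlgebraicClosure K/K) (V i)),
      ((∀ j, Small (fixed ρ (Y.F j))) →
        Small (fun i => Representation.invariants (ρ i)) ∧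
        euler (fun i => Representation.invariants (ρ i)) =
          ∑ j, Y.e j * euler (fixed ρ (Y.F j))) ∧
      ∀ U : Set ℂ, Region U → ∀ a ∈ U, ∀ δ : Fin Y.r → ℤ,
        (∀ j, OrderFormula U (baseChange f (Y.F j)) a (fixed ρ (Y.F j)) (δ j)) →
        OrderFormula U X a (fun i => Representation.invariants (ρ i)) (∑ j, Y.e j * δ j) ∧
        ∀ Λ : ℂ → ℂ, Continues U X Λ → meromorphicOrderAt Λ a =
          ((-(euler (fun i => Representation.invariants (ρ i)) + ∑ j, Y.e j * δ j) : ℤ) :
            WithTop ℤ) := by
  obtain ⟨Y, hY, hrel⟩ := Pool.Agent.N19.BR.hyper_list K L S₀ hS₀ m hm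
  have hne : Nonempty (Fin Y.r) := Pool.Agent.N19.BR.nonempty_of_rel one_ne_zero hrel
  refine ⟨Y, hY, fun X f hf1 hf2 => ⟨?_, ?_, ?_⟩⟩
  · obtain ⟨σ, hσ⟩ := Pool.Agent.N19.BR.zeta_rel f hrel
    refine ⟨σ, fun s hs => ?_⟩
    obtain ⟨h1, h2, h3⟩ := hσ s hs
    rw [pow_one] at h3
    exact ⟨h1, h2, h3⟩
  · intro U hU hΛ
    choose Λ hΛ using hΛ
    exact (Pool.Agent.N19.BR.sch_cont f hrel hU hΛ).1
  · intro V _ _ ρ
    exact ⟨fun hs => Pool.Agent.N19.BR.small_rel ρ Y.F hrel hs, fun U hU a ha δ hF =>
      Pool.Agent.N19.BR.order_rel_sch ρ Y.F hrel f hU ha hF⟩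

end Pool.Agent.Results.MP_666bea_ag.SpecialBaseFields
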